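import Mathlib

set_option autoImplicit false

namespace Pool.Agent.Results.MP_c389b3_nt.Disproof

/-- The `(α, β)`-walk `w_1 = a₁`, `w_2 = a₂`, `w_{k+2} = α w_{k+1} + β w_k` (`k ≥ 1`).
Indices start at `1`; the value at index `0` is never used below. -/
def walk (α β a₁ a₂ : ℕ) : ℕ → ℕ
  | 0 => 0
  | 1 => a₁
  | 2 => a₂
  | (k + 3) => α * walk α β a₁ a₂ (k + 2) + β * walk α β a₁ a₂ (k + 1)

/-- Indices `k ≥ 1` at which some `(α, β)`-walk with positive starting values takes the value `n`. -/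
def indices (p : ℕ × ℕ) (n : ℕ) : Set ℕ :=
  {k | 1 ≤ k ∧ ∃ a₁ a₂ : ℕ, 1 ≤ a₁ ∧ 1 ≤ a₂ ∧ walk p.1 p.2 a₁ a₂ k = n}

/-- `s^{α,β}(n)`: the largest index at which some positive `(α, β)`-walk reaches `n`. -/
noncomputable def slow (p : ℕ × ℕ) (n : ℕ) : ℕ := sSup (indices p n)

/-- `S_T(n)`: the pairs of `T` attaining the maximum of `s^{α,β}(n)` over `T`. -/
def slowest (T : Set (ℕ × ℕ)) (n : ℕ) : Set (ℕ × ℕ) :=
  {p | p ∈ T ∧ ∀ q ∈ T, slow q n ≤ slow p n}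

/-- `γ_{α,β}`, the larger root of `x² = α x + β`. -/
noncomputable def gam (p : ℕ × ℕ) : ℝ := ((p.1 : ℝ) + Real.sqrt ((p.1 : ℝ) ^ 2 + 4 * (p.2 : ℝ))) / 2

/-- `Γ_T`, the least value of `γ_{α,β}` over `T`. -/
noncomputable def Gam (T : Set (ℕ × ℕ)) : ℝ := sInf (gam '' T)

/-- `R_T'`. -/
def Rprime (T : Set (ℕ × ℕ)) : Set (ℕ × ℕ) := {p | p ∈ T ∧ gam p < Gam T ^ 2}

/-! ### Basic facts -/

lemma walk_ge (α β a₁ a₂ : ℕ) (hα : 1 ≤ α) (hβ : 1 ≤ β) (h₁ : 1 ≤ a₁) (h₂ : 1 ≤ a₂) :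
    ∀ k : ℕ, k + 1 ≤ walk α β a₁ a₂ (k + 2) ∧ 1 ≤ walk α β a₁ a₂ (k + 1) := by
  intro k
  induction k with
  | zero => exact ⟨by simpa [walk] using h₂, by simpa [walk] using h₁⟩
  | succ k ih =>
    obtain ⟨h, h'⟩ := ih
    refine ⟨?_, by show 1 ≤ walk α β a₁ a₂ (k + 2); omega⟩
    have : walk α β a₁ a₂ (k + 1 + 2) =
        α * walk α β a₁ a₂ (k + 2) + β * walk α β a₁ a₂ (k + 1) := by
      simp [walk]
    rw [this]
    have e1 : walk α β a₁ a₂ (k + 2) ≤ α * walk α β a₁ a₂ (k + 2) := Nat.le_mul_of_pos_left _ hα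
    have e2 : walk α β a₁ a₂ (k + 1) ≤ β * walk α β a₁ a₂ (k + 1) := Nat.le_mul_of_pos_left _ hβ
    omega

lemma indices_bdd (p : ℕ × ℕ) (h1 : 1 ≤ p.1) (h2 : 1 ≤ p.2) (n : ℕ) :
    ∀ k ∈ indices p n, k ≤ n + 1 := by
  rintro k ⟨hk, a₁, a₂, ha₁, ha₂, hw⟩
  rcases Nat.lt_or_ge k 2 with h | h
  · omega
  · obtain ⟨j, rfl⟩ := Nat.exists_eq_add_of_le' h
    have := (walk_ge p.1 p.2 a₁ a₂ h1 h2 ha₁ ha₂ j).1
    omega

lemma one_mem_indices (p : ℕ × ℕ) (n : ℕ) (hn : 1 ≤ n) : 1 ∈ indices p n :=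
  ⟨le_refl _, n, 1, hn, le_refl _, by simp [walk]⟩

/-- Sanity check: `slow p n` really is the greatest such index. -/
lemma slow_isGreatest (p : ℕ × ℕ) (h1 : 1 ≤ p.1) (h2 : 1 ≤ p.2) (n : ℕ) (hn : 1 ≤ n) :
    IsGreatest (indices p n) (slow p n) := by
  have hb : BddAbove (indices p n) := ⟨n + 1, fun k hk => indices_bdd p h1 h2 n k hk⟩
  have hne : (indices p n).Nonempty := ⟨1, one_mem_indices p n hn⟩
  exact ⟨Nat.sSup_mem hne hb, fun k hk => le_csSup hb hk⟩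

/-- Dropping the first terms of a walk gives a walk. -/
lemma walk_shift (α β a₁ a₂ d : ℕ) : ∀ k : ℕ,
    walk α β (walk α β a₁ a₂ (d + 1)) (walk α β a₁ a₂ (d + 2)) (k + 1)
      = walk α β a₁ a₂ (d + k + 1) ∧
    walk α β (walk α β a₁ a₂ (d + 1)) (walk α β a₁ a₂ (d + 2)) (k + 2)
      = walk α β a₁ a₂ (d + k + 2) := by
  intro k
  induction k with
  | zero => exact ⟨by simp [walk], by simp [walk]⟩
  | succ k ih =>
    obtain ⟨h1, h2⟩ := ih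
    refine ⟨?_, ?_⟩
    · have e : d + (k + 1) + 1 = d + k + 2 := by ring
      have e' : k + 1 + 1 = k + 2 := by ring
      rw [e, e']; exact h2
    · have e : d + (k + 1) + 2 = d + k + 3 := by ring
      have e' : k + 1 + 2 = k + 3 := by ring
      rw [e, e']
      simp only [walk]
      rw [h1, h2]

lemma indices_down (p : ℕ × ℕ) (h1 : 1 ≤ p.1) (h2 : 1 ≤ p.2) (n k m : ℕ)
    (hk : 1 ≤ k) (hkm : k ≤ m) (hm : m ∈ indices p n) : k ∈ indices p n := by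
  obtain ⟨_, a₁, a₂, ha₁, ha₂, hw⟩ := hm
  obtain ⟨d, rfl⟩ := Nat.exists_eq_add_of_le' hkm
  obtain ⟨j, rfl⟩ := Nat.exists_eq_add_of_le' hk
  refine ⟨hk, walk p.1 p.2 a₁ a₂ (d + 1), walk p.1 p.2 a₁ a₂ (d + 2), ?_, ?_, ?_⟩
  · exact (walk_ge p.1 p.2 a₁ a₂ h1 h2 ha₁ ha₂ d).2
  · have := (walk_ge p.1 p.2 a₁ a₂ h1 h2 ha₁ ha₂ d).1
    omega
  · rw [(walk_shift p.1 p.2 a₁ a₂ d j).1, ← hw]
    congr 1

/-! ### Closed forms -/

lemma closed_310 (b₁ b₂ : ℕ) : ∀ k : ℕ,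
    7 * (walk 3 10 b₁ b₂ (k + 1) : ℤ)
      = ((b₂ : ℤ) + 2 * b₁) * 5 ^ k + (5 * (b₁ : ℤ) - b₂) * (-2) ^ k ∧
    7 * (walk 3 10 b₁ b₂ (k + 2) : ℤ)
      = ((b₂ : ℤ) + 2 * b₁) * 5 ^ (k + 1) + (5 * (b₁ : ℤ) - b₂) * (-2) ^ (k + 1) := by
  intro k
  induction k with
  | zero => constructor <;> simp [walk] <;> ring
  | succ k ih =>
    obtain ⟨h1, h2⟩ := ih
    refine ⟨h2, ?_⟩
    have e : (walk 3 10 b₁ b₂ (k + 1 + 2) : ℤ) =
        3 * (walk 3 10 b₁ b₂ (k + 2) : ℤ) + 10 * (walk 3 10 b₁ b₂ (k + 1) : ℤ) := by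
      have : k + 1 + 2 = k + 3 := by ring
      rw [this]
      simp only [walk]
      push_cast
      ring
    rw [e]
    linear_combination 3 * h2 + 10 * h1

lemma closed_2425 : ∀ k : ℕ,
    13 * (walk 24 25 1 1 (k + 1) : ℤ) = 25 ^ k + 12 * (-1) ^ k ∧
    13 * (walk 24 25 1 1 (k + 2) : ℤ) = 25 ^ (k + 1) + 12 * (-1) ^ (k + 1) := by
  intro k
  induction k with
  | zero => constructor <;> simp [walk]
  | succ k ih =>
    obtain ⟨h1, h2⟩ := ih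
    refine ⟨h2, ?_⟩
    have e : (walk 24 25 1 1 (k + 1 + 2) : ℤ) =
        24 * (walk 24 25 1 1 (k + 2) : ℤ) + 25 * (walk 24 25 1 1 (k + 1) : ℤ) := by
      have : k + 1 + 2 = k + 3 := by ring
      rw [this]
      simp only [walk]
      push_cast
      ring
    rw [e]
    linear_combination 24 * h2 + 25 * h1

/-! ### The key step -/

/-- If the `(3,10)`-walk from `(b₁, b₂)` reaches `w_{j+1}^{24,25}(1,1)` at index `j + 2`
then `R = 5 b₁ - b₂` is small, and is determined modulo `5^{j+1}`. -/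
lemma key (j b₁ b₂ : ℕ) (hj : 3 ≤ j) (h₁ : 1 ≤ b₁) (h₂ : 1 ≤ b₂)
    (h : walk 3 10 b₁ b₂ (j + 2) = walk 24 25 1 1 (j + 1)) :
    10 * |5 * (b₁ : ℤ) - b₂| ≤ 3 * 5 ^ j ∧
    (5 : ℤ) ^ (j + 1) ∣ 84 * (-1) ^ j - 13 * (5 * (b₁ : ℤ) - b₂) * (-2) ^ (j + 1) := by
  have e1 := (closed_310 b₁ b₂ j).2
  have e2 := (closed_2425 j).1
  rw [h] at e1
  set R : ℤ := 5 * (b₁ : ℤ) - b₂ with hR
  set S : ℤ := (b₂ : ℤ) + 2 * b₁ with hS
  have hb1 : (1 : ℤ) ≤ b₁ := by exact_mod_cast h₁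
  have hb2 : (1 : ℤ) ≤ b₂ := by exact_mod_cast h₂
  have hRS1 : -S < R := by rw [hR, hS]; linarith
  have hRS2 : 2 * R < 5 * S := by rw [hR, hS]; linarith
  have hSpos : 0 < S := by rw [hS]; linarith
  -- the combined equation
  have E : 13 * S * 5 ^ (j + 1) + 13 * R * (-2) ^ (j + 1) = 7 * 25 ^ j + 84 * (-1) ^ j := by
    linear_combination 7 * e2 - 13 * e1
  constructor
  · -- size
    have hpow2 : |(-2 : ℤ) ^ (j + 1)| = 2 ^ (j + 1) := by
      rw [abs_pow]; norm_num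
    have hneg1 : |(-1 : ℤ) ^ j| = 1 := by
      rw [abs_pow]; norm_num
    have h25 : (25 : ℤ) ^ j = 5 ^ j * 5 ^ j := by
      rw [← mul_pow]; norm_num
    have habsR : 2 * |R| < 5 * S := by
      rcases abs_cases R with ⟨h, _⟩ | ⟨h, _⟩ <;> rw [h] <;> linarith
    have hRpow : -(|R| * 2 ^ (j + 1)) ≤ R * (-2) ^ (j + 1) := by
      have := neg_abs_le (R * (-2) ^ (j + 1))
      rw [abs_mul, hpow2] at this
      exact this
    have hone : (-1 : ℤ) ^ j ≤ 1 := by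
      have := le_abs_self ((-1 : ℤ) ^ j)
      rw [hneg1] at this
      exact this
    -- 2^(j+1) ≤ (16/625) 5^(j+1)
    have hp : 625 * (2 : ℤ) ^ (j + 1) ≤ 16 * 5 ^ (j + 1) := by
      obtain ⟨i, rfl⟩ := Nat.exists_eq_add_of_le' hj
      have hi : (2 : ℤ) ^ i ≤ 5 ^ i := pow_le_pow_left₀ (by norm_num) (by norm_num) i
      have a1 : (2 : ℤ) ^ (i + 3 + 1) = 16 * 2 ^ i := by ring
      have a2 : (5 : ℤ) ^ (i + 3 + 1) = 625 * 5 ^ i := by ring
      rw [a1, a2]; linarith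
    have h5j : (125 : ℤ) ≤ 5 ^ j := by
      calc (125 : ℤ) = 5 ^ 3 := by norm_num
        _ ≤ 5 ^ j := pow_le_pow_right₀ (by norm_num) hj
    have h5j1 : (5 : ℤ) ^ (j + 1) = 5 * 5 ^ j := by ring
    -- main inequality
    have hRS : 13 * R * (-2) ^ (j + 1) = 13 * (R * (-2) ^ (j + 1)) := by ring
    have hSbound : 13 * (S * 5 ^ (j + 1)) ≤ 7 * (5 ^ j * 5 ^ j) + 84 + 13 * (|R| * 2 ^ (j + 1)) := by
      rw [← h25]
      have e : 13 * S * 5 ^ (j + 1) = 13 * (S * 5 ^ (j + 1)) := by ring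
      rw [e, hRS] at E
      linarith
    have hR2 : 1250 * (|R| * 2 ^ (j + 1)) ≤ 80 * (S * 5 ^ (j + 1)) := by
      have hnn : (0 : ℤ) ≤ 2 ^ (j + 1) := by positivity
      have t1 : 2 * |R| * 2 ^ (j + 1) ≤ 5 * S * 2 ^ (j + 1) :=
        mul_le_mul_of_nonneg_right habsR.le hnn
      have t2 : S * (625 * 2 ^ (j + 1)) ≤ S * (16 * 5 ^ (j + 1)) :=
        mul_le_mul_of_nonneg_left hp hSpos.le
      calc 1250 * (|R| * 2 ^ (j + 1)) = 625 * (2 * |R| * 2 ^ (j + 1)) := by ring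
        _ ≤ 625 * (5 * S * 2 ^ (j + 1)) := by linarith
        _ = 5 * (S * (625 * 2 ^ (j + 1))) := by ring
        _ ≤ 5 * (S * (16 * 5 ^ (j + 1))) := by linarith
        _ = 80 * (S * 5 ^ (j + 1)) := by ring
    have h3 : 13 * 1170 * (S * 5 ^ (j + 1)) ≤ 1250 * (7 * (5 ^ j * 5 ^ j) + 84) := by
      linarith
    have h4 : 13 * 1170 * 5 * (S * 5 ^ j) ≤ 1250 * (7 * (5 ^ j * 5 ^ j) + 84) := by
      have : 13 * 1170 * 5 * (S * 5 ^ j) = 13 * 1170 * (S * 5 ^ (j + 1)) := by rw [h5j1]; ring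
      rw [this]; exact h3
    have h7 : (15625 : ℤ) ≤ 5 ^ j * 5 ^ j := by
      calc (15625 : ℤ) = 125 * 125 := by norm_num
        _ ≤ 5 ^ j * 5 ^ j := mul_le_mul h5j h5j (by norm_num) (by positivity)
    have h8 : 13 * 1170 * 5 * 15625 * (S * 5 ^ j)
        ≤ 1250 * ((7 * 15625 + 84) * (5 ^ j * 5 ^ j)) := by
      linarith
    have h9 : 13 * 1170 * 5 * 15625 * S ≤ 1250 * (7 * 15625 + 84) * 5 ^ j := by
      have hpos : (0 : ℤ) < 5 ^ j := by positivity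
      have : (13 * 1170 * 5 * 15625 * S) * 5 ^ j ≤ (1250 * (7 * 15625 + 84) * 5 ^ j) * 5 ^ j := by
        calc (13 * 1170 * 5 * 15625 * S) * 5 ^ j = 13 * 1170 * 5 * 15625 * (S * 5 ^ j) := by ring
          _ ≤ _ := h8
          _ = (1250 * (7 * 15625 + 84) * 5 ^ j) * 5 ^ j := by ring
      exact le_of_mul_le_mul_right this hpos
    have h5jpos : (0 : ℤ) < 5 ^ j := by positivity
    linarith
  · -- divisibility
    have h25 : (25 : ℤ) ^ j = 5 ^ (j + 1) * 5 ^ (j - 1) := by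
      rw [← pow_add]
      have : j + 1 + (j - 1) = 2 * j := by omega
      rw [this, pow_mul]; norm_num
    refine ⟨13 * S - 7 * 5 ^ (j - 1), ?_⟩
    have : 84 * (-1 : ℤ) ^ j - 13 * R * (-2) ^ (j + 1) = 13 * S * 5 ^ (j + 1) - 7 * 25 ^ j := by
      linear_combination -E
    rw [this, h25]; ring

/-- For arbitrarily large `j`, no positive `(3,10)`-walk reaches `w_{j+1}^{24,25}(1,1)` at index
`j + 2`. -/
lemma not_all (J : ℕ) : ∃ j, J ≤ j ∧ ¬ ∃ b₁ b₂ : ℕ, 1 ≤ b₁ ∧ 1 ≤ b₂ ∧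
    walk 3 10 b₁ b₂ (j + 2) = walk 24 25 1 1 (j + 1) := by
  by_contra hcon
  push Not at hcon
  -- choose the representations
  have hall : ∀ j, ∃ R : ℤ, 10 * |R| ≤ 3 * 5 ^ (j + (J + 3)) ∧
      (5 : ℤ) ^ (j + (J + 3) + 1) ∣
        84 * (-1) ^ (j + (J + 3)) - 13 * R * (-2) ^ (j + (J + 3) + 1) := by
    intro j
    obtain ⟨b₁, b₂, h₁, h₂, h⟩ := hcon (j + (J + 3)) (by omega)
    exact ⟨_, key (j + (J + 3)) b₁ b₂ (by omega) h₁ h₂ h⟩
  choose R hR1 hR2 using hall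
  have step : ∀ j, R j = 2 * R (j + 1) := by
    intro j
    set m := j + (J + 3) with hm
    have hm' : j + 1 + (J + 3) = m + 1 := by omega
    have a1 := hR1 j
    have a2 := hR1 (j + 1)
    have d1 := hR2 j
    have d2 := hR2 (j + 1)
    rw [hm'] at a2 d2
    rw [← hm] at a1 d1
    have d2' : (5 : ℤ) ^ (m + 1) ∣ 84 * (-1) ^ (m + 1) - 13 * R (j + 1) * (-2) ^ (m + 1 + 1) :=
      dvd_trans (pow_dvd_pow 5 (by omega)) d2
    have d3 : (5 : ℤ) ^ (m + 1) ∣ (13 * (-2) ^ (m + 1)) * (2 * R (j + 1) - R j) := by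
      have := dvd_add d1 d2'
      have e : 84 * (-1 : ℤ) ^ m - 13 * R j * (-2) ^ (m + 1) +
          (84 * (-1) ^ (m + 1) - 13 * R (j + 1) * (-2) ^ (m + 1 + 1)) =
          (13 * (-2) ^ (m + 1)) * (2 * R (j + 1) - R j) := by
        ring
      rw [e] at this
      exact this
    have hcop : IsCoprime ((5 : ℤ) ^ (m + 1)) (13 * (-2) ^ (m + 1)) := by
      apply IsCoprime.mul_right
      · exact IsCoprime.pow_left (by norm_num)
      · exact IsCoprime.pow (by norm_num)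
    have d4 : (5 : ℤ) ^ (m + 1) ∣ 2 * R (j + 1) - R j := hcop.dvd_of_dvd_mul_left d3
    have hlt : |2 * R (j + 1) - R j| < 5 ^ (m + 1) := by
      have t : |2 * R (j + 1) - R j| ≤ 2 * |R (j + 1)| + |R j| := by
        calc |2 * R (j + 1) - R j| ≤ |2 * R (j + 1)| + |R j| := abs_sub _ _
          _ = 2 * |R (j + 1)| + |R j| := by rw [abs_mul]; norm_num
      have hp : (0 : ℤ) < 5 ^ m := by positivity
      have e5 : (5 : ℤ) ^ (m + 1) = 5 * 5 ^ m := by ring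
      rw [e5] at a2 ⊢
      linarith
    have := Int.eq_zero_of_abs_lt_dvd d4 hlt
    linarith
  have hpow : ∀ i, R 0 = 2 ^ i * R i := by
    intro i
    induction i with
    | zero => simp
    | succ i ih => rw [ih, step i]; ring
  have hzero : R 0 = 0 := by
    by_contra hne
    obtain ⟨i, hi⟩ := pow_unbounded_of_one_lt |R 0| (by norm_num : (1 : ℤ) < 2)
    have hdvd : (2 : ℤ) ^ i ∣ R 0 := ⟨R i, hpow i⟩
    have : (2 : ℤ) ^ i ≤ |R 0| := Int.le_of_dvd (abs_pos.mpr hne) ((dvd_abs _ _).mpr hdvd)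
    linarith
  have d := hR2 0
  rw [hzero] at d
  simp only [mul_zero, zero_mul, sub_zero] at d
  have d5 : (5 : ℤ) ∣ 84 * (-1) ^ (0 + (J + 3)) := dvd_trans (dvd_pow_self 5 (by omega)) d
  have h84 : (5 : ℤ) ∣ 84 := by
    rcases neg_one_pow_eq_or ℤ (0 + (J + 3)) with h | h
    · rw [h] at d5; simpa using d5
    · rw [h] at d5
      have := (dvd_neg (a := (5 : ℤ)) (b := 84)).mp (by simpa using d5)
      exact this
  norm_num at h84

/-! ### The value of `Γ_T` -/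

lemma gam_310 : gam (3, 10) = 5 := by
  have : Real.sqrt ((3 : ℝ) ^ 2 + 4 * 10) = 7 := by
    rw [show ((3 : ℝ) ^ 2 + 4 * 10) = 7 ^ 2 by norm_num]
    exact Real.sqrt_sq (by norm_num)
  simp only [gam]
  push_cast
  rw [this]; norm_num

lemma gam_2425 : gam (24, 25) = 25 := by
  have : Real.sqrt ((24 : ℝ) ^ 2 + 4 * 25) = 26 := by
    rw [show ((24 : ℝ) ^ 2 + 4 * 25) = 26 ^ 2 by norm_num]
    exact Real.sqrt_sq (by norm_num)
  simp only [gam]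
  push_cast
  rw [this]; norm_num

lemma Gam_T : Gam {(3, 10), (24, 25)} = 5 := by
  have : gam '' ({(3, 10), (24, 25)} : Set (ℕ × ℕ)) = {5, 25} := by
    rw [Set.image_pair, gam_310, gam_2425]
  rw [Gam, this, csInf_pair]
  norm_num

/-! ### The main theorem -/

lemma infinite_slowest :
    {n : ℕ | 1 ≤ n ∧ ((24, 25) : ℕ × ℕ) ∈ slowest {(3, 10), (24, 25)} n}.Infinite := by
  rw [Set.infinite_iff_exists_gt]
  intro N
  obtain ⟨j, hj, hno⟩ := not_all (N + 2)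
  have hn : j ≤ walk 24 25 1 1 (j + 1) := by
    obtain ⟨i, rfl⟩ : ∃ i, j = i + 1 := ⟨j - 1, by omega⟩
    have := (walk_ge 24 25 1 1 (by norm_num) (by norm_num) le_rfl le_rfl i).1
    simpa using this
  refine ⟨walk 24 25 1 1 (j + 1), ⟨by omega, by simp, ?_⟩, by omega⟩
  have hn1 : 1 ≤ walk 24 25 1 1 (j + 1) := by omega
  have hbig : j + 1 ≤ slow (24, 25) (walk 24 25 1 1 (j + 1)) :=
    (slow_isGreatest (24, 25) (by norm_num) (by norm_num) _ hn1).2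
      ⟨by omega, 1, 1, le_rfl, le_rfl, rfl⟩
  intro q hq
  simp only [Set.mem_insert_iff, Set.mem_singleton_iff] at hq
  rcases hq with rfl | rfl
  · refine le_trans ?_ hbig
    by_contra hlt
    push Not at hlt
    have hmem := (slow_isGreatest (3, 10) (by norm_num) (by norm_num) _ hn1).1
    have hmem' := indices_down (3, 10) (by norm_num) (by norm_num) _ (j + 2) _ (by omega) hlt hmem
    obtain ⟨_, b₁, b₂, h₁, h₂, h⟩ := hmem'
    exact hno ⟨b₁, b₂, h₁, h₂, h⟩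
  · exact le_rfl

/-- **Q1 is false.**  It is not true that for every nonempty set `T` of coprime pairs and every
`(α, β) ∈ T` the set `{n ≥ 1 : (α, β) ∈ S_T(n)}` is infinite if and only if
`(α, β) ∈ R_T'`. -/
theorem result :
    ¬ ∀ T : Set (ℕ × ℕ), T.Nonempty →
        (∀ p ∈ T, 1 ≤ p.1 ∧ 1 ≤ p.2 ∧ Nat.Coprime p.1 p.2) →
        ∀ p ∈ T, ({n : ℕ | 1 ≤ n ∧ p ∈ slowest T n}.Infinite ↔ p ∈ Rprime T) := by
  intro h
  have h1 := h {(3, 10), (24, 25)} ⟨(3, 10), by simp⟩ (by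
    intro p hp
    simp only [Set.mem_insert_iff, Set.mem_singleton_iff] at hp
    rcases hp with rfl | rfl <;> norm_num) (24, 25) (by simp)
  have h2 := (h1.mp infinite_slowest).2
  rw [Gam_T, gam_2425] at h2
  norm_num at h2

end Pool.Agent.Results.MP_c389b3_nt.Disproof
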